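import Pool.Agent.Y120.J.DefsW
import Pool.Agent.Y120.H.FamR

/-!
# Windows: `k`-tuples of shifts (job J-W1)
-/

set_option autoImplicit false

open PowerSeries Pool.Agent.Y113 Pool.Agent.Y120.GF Pool.Agent.Y120.GH

namespace Pool.Agent.Y758.J

variable {σ : Type} [Fintype σ] {R : ℕ} {F : ℕ → σ → ℚ⟦X⟧} {Tg : ℕ → Polynomial ℤ} {q₀ E₀ : ℕ}
  {b₀ : σ}

/-- jointly separated tuples -/
def SepJ (R : ℕ) {m k : ℕ} (G : Fin m → Fin k → ℕ) : Prop := (∀ l i, R ≤ G l i) ∧
  ∀ l i l' i', (l, i) ≠ (l', i') → G l i + R ≤ G l' i' ∨ G l' i' + R ≤ G l i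

/-- the flattened tuple -/
def flat {m k : ℕ} {α : Type} (G : Fin m → Fin k → α) (p : Fin (m * k)) : α :=
  G (finProdFinEquiv.symm p).1 (finProdFinEquiv.symm p).2

theorem SepJ.flat {R m k : ℕ} {G : Fin m → Fin k → ℕ} (h : SepJ R G) : SepR R (flat G) := by
  refine ⟨fun p => h.1 _ _, fun p p' hne => h.2 _ _ _ _ fun he => hne ?_⟩
  exact finProdFinEquiv.symm.injective he

theorem prod_flat {m k : ℕ} {α : Type} (G : Fin m → Fin k → α) (f : α → ℝ) :
    ∏ p, f (flat G p) = ∏ l, ∏ i, f (G l i) := by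
  rw [← finProdFinEquiv.prod_comp, Fintype.prod_prod_type]
  refine Finset.prod_congr rfl fun l _ => Finset.prod_congr rfl fun i _ => ?_
  unfold flat
  rw [Equiv.symm_apply_apply]

theorem win_coreK (hF : FamR R F Tg q₀ E₀ b₀) (D k : ℕ) : ∃ E : ℕ, ∀ (H t : ℕ), (H + 2) ^ E ≤ t →
    ∀ G : Fin D → Fin k → ℕ, SepJ R G → (∀ l i, G l i ≤ H) → 0 < D →
    ∀ (V : Submodule ℚ ℂ) [Module.Finite ℚ V], Module.finrank ℚ V = D →
    (∀ l, Bad V fun b : Fin k → σ => ∏ i, ((ev t (F (G l i) (b i)) : ℝ) : ℂ)) → False := by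
  classical
  obtain ⟨q, E₁, hE₁⟩ := gsys_multi F Tg q₀ E₀ hF.sys (D * k)
  obtain ⟨E₂, hE₂⟩ := t_G (Fintype.card (Fin (D * k) → σ)) q
  refine ⟨(max E₁ 1 + 1) * max E₂ 1 + (E₀ + 2) + (R + 1), ?_⟩
  intro H t hHt G hG hGH hD V _ hV hbad
  set g : Fin (D * k) → ℕ := flat G with hgdef
  have hg : SepR R g := hG.flat
  have hgH : ∀ l, g l ≤ H := fun l => hGH _ _
  have hH2 : (2 : ℝ) ≤ (H : ℝ) + 2 := by
    have : (0 : ℝ) ≤ H := by positivity
    linarith
  have hH1 : (1 : ℝ) ≤ (H : ℝ) + 2 := by linarith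
  have htR : (((H : ℝ) + 2)) ^ ((max E₁ 1 + 1) * max E₂ 1 + (E₀ + 2) + (R + 1)) ≤ (t : ℝ) := by exact_mod_cast hHt
  have hb1 : ((H : ℝ) + 2) ^ ((max E₁ 1 + 1) * max E₂ 1) ≤ (t : ℝ) :=
    (pow_le_pow_right₀ hH1 (by omega)).trans htR
  have hb2 : ((H : ℝ) + 2) ^ (E₀ + 2) ≤ (t : ℝ) := (pow_le_pow_right₀ hH1 (by omega)).trans htR
  have hHt' : H + R < t := by
    have h1 : (H + 2) ^ (R + 1) ≤ t := (Nat.pow_le_pow_right (by omega) (by omega)).trans hHt
    have h2 : R < 2 ^ R := Nat.lt_two_pow_self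
    have h3 : 2 ^ R ≤ (H + 2) ^ R := Nat.pow_le_pow_left (by omega) _
    have h4 : (R + 1) * (H + 2) ≤ (H + 2) ^ (R + 1) := by
      rw [pow_succ]
      exact Nat.mul_le_mul_right _ (by omega)
    have h5 : H + R < (R + 1) * (H + 2) := by nlinarith
    omega
  have ht0 : (0 : ℝ) < t := by
    have : 0 < t := by omega
    exact_mod_cast this
  have hsys := (hE₁ H g hgH).mono le_rfl (pow_le_pow_right₀ hH1 (le_max_left E₁ 1))
  have hC : (2 * ((H : ℝ) + 2) ^ (max E₁ 1)) ^ E₂ ≤ (t : ℝ) := by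
    have h1 : (2 * ((H : ℝ) + 2) ^ (max E₁ 1)) ^ E₂ ≤ (2 * ((H : ℝ) + 2) ^ (max E₁ 1)) ^ (max E₂ 1) := by
      refine pow_le_pow_right₀ ?_ (le_max_left _ _)
      have : (1 : ℝ) ≤ ((H : ℝ) + 2) ^ (max E₁ 1) := one_le_pow₀ hH1
      linarith
    exact h1.trans ((pow_base H _ _).trans hb1)
  have hne : Polynomial.aeval (1 / (t : ℝ)) (∏ l, Tg (g l)) ≠ 0 := by
    rw [map_prod, Finset.prod_ne_zero_iff]
    intro l _
    refine hF.ne _ _ ?_
    have := hgH l
    omega
  have hLI := hE₂ (Fin (D * k) → σ) (((H : ℝ) + 2) ^ (max E₁ 1)) (∏ l, Tg (g l)) (fun b => ∏ l, F (g l) (b l)) (fun _ => b₀) t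
    le_rfl hsys (Finset.prod_eq_one fun l _ => hF.one _) (hF.li (D * k) g hg) hC hne
  -- multiplicativity
  have hcv : ∀ l b, Cv (t : ℝ) (F (g l) b) := by
    intro l b
    have h1 := (hF.sys (g l)).size b
    set B : ℝ := ((g l : ℝ) + 2) ^ E₀ with hB
    have hB0 : 0 ≤ B := by positivity
    refine Cv.of_bound (A := B) (B := B) ht0 hB0 ?_ fun m => ?_
    · have h2 : B ≤ ((H : ℝ) + 2) ^ E₀ := by
        refine pow_le_pow_left₀ (by positivity) ?_ _
        have : ((g l : ℕ) : ℝ) ≤ H := by exact_mod_cast hgH l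
        linarith
      have h3 : ((H : ℝ) + 2) ^ E₀ < ((H : ℝ) + 2) ^ (E₀ + 2) := pow_lt_pow_right₀ (by linarith) (by omega)
      linarith
    · exact (h1 m).trans (le_of_eq (pow_succ' _ _))
  have hev : ∀ b : Fin (D * k) → σ, ev (t : ℝ) (∏ l, F (g l) (b l)) = ∏ l, ev (t : ℝ) (F (g l) (b l)) := by
    intro b
    exact Cv.ev_prod ht0 Finset.univ (fun l => F (g l) (b l)) fun l _ => hcv l _
  simp only [hev] at hLI
  -- reindexing
  have hinj : Function.Injective (fun B : Fin D → (Fin k → σ) => (flat B : Fin (D * k) → σ)) := by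
    intro B B' h
    funext l i
    have h1 := congrFun h (finProdFinEquiv (l, i))
    simp only [flat, Equiv.symm_apply_apply] at h1
    exact h1
  have hLI2 : LinearIndependent ℚ
      (fun B : Fin D → (Fin k → σ) => ∏ l, ∏ i, ev (t : ℝ) (F (G l i) (B l i))) := by
    have h1 := hLI.comp _ hinj
    have h2 : (fun B : Fin D → (Fin k → σ) => ∏ l, ∏ i, ev (t : ℝ) (F (G l i) (B l i))) =
        (fun b : Fin (D * k) → σ => ∏ l, ev (t : ℝ) (F (g l) (b l))) ∘
          (fun B : Fin D → (Fin k → σ) => (flat B : Fin (D * k) → σ)) := by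
      funext B
      exact (prod_flat (fun l i => (G l i, B l i)) (fun p => ev (t : ℝ) (F p.1 p.2))).symm
    rw [h2]
    exact h1
  -- coordinates
  let e := Module.finBasisOfFinrankEq ℚ V hV
  choose v hvV hv0 hv using hbad
  have hrep : ∀ l b, ∃ τ : Fin D → ℚ, ∑ j, ((τ j : ℚ) : ℂ) * ((e j : V) : ℂ) = v l b := by
    intro l b
    refine ⟨fun j => e.repr ⟨v l b, hvV l b⟩ j, ?_⟩
    have h1 := e.sum_repr ⟨v l b, hvV l b⟩
    have h2 := congrArg (fun z : V => (z : ℂ)) h1
    simp only [Submodule.coe_sum, Submodule.coe_smul] at h2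
    refine Eq.trans ?_ h2
    refine Finset.sum_congr rfl fun j _ => ?_
    rw [Rat.smul_def]
  choose τ hrep using hrep
  have heLI : LinearIndependent ℚ (fun j => ((e j : V) : ℂ)) := by
    have := e.linearIndependent
    exact this.map' V.subtype (Submodule.ker_subtype V)
  obtain ⟨l, hl⟩ := Pool.Agent.Y141.GF.t_elim D (Fin k → σ) (fun l b => ∏ i, ev (t : ℝ) (F (G l i) (b i)))
    (fun j => ((e j : V) : ℂ)) (fun l j b => τ l b j) hLI2 heLI (by
      intro l
      rw [Finset.sum_comm, ← hv l]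
      refine Finset.sum_congr rfl fun b _ => ?_
      rw [← hrep l b, Finset.sum_mul]
      refine Finset.sum_congr rfl fun j _ => ?_
      push_cast
      ring) hD
  apply hv0 l
  funext b
  rw [← hrep l b]
  refine Finset.sum_eq_zero fun j _ => ?_
  have h1 := congrFun (congrFun hl j) b
  simp only [Pi.zero_apply] at h1
  rw [h1]
  simp

/-- in every short window, all separated `k`-tuples outside a bounded set are good -/
theorem t_w1 : Pool.Agent.Y120.J.T_W1 := by
  classical
  intro σ _ R F Tg q₀ E₀ b₀ hF D k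
  choose E hE using fun D => win_coreK hF D k
  refine ⟨∑ D' ∈ Finset.range (D + 1), E D', D * k * (2 * R), ?_⟩
  intro H t hHt V _ hV
  set D' := Module.finrank ℚ V with hD'
  have hEle : E D' ≤ ∑ D' ∈ Finset.range (D + 1), E D' :=
    Finset.single_le_sum (f := E) (fun _ _ => Nat.zero_le _) (Finset.mem_range.2 (by omega))
  have hHt' : (H + 2) ^ E D' ≤ t := (Nat.pow_le_pow_right (by omega) hEle).trans hHt
  rcases Nat.eq_zero_or_pos D' with h0 | hpos
  · refine ⟨∅, by simp, fun g _ _ hb => ?_⟩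
    obtain ⟨v, hv1, hv2, -⟩ := hb
    apply hv2
    have hV0 : V = ⊥ := Submodule.finrank_eq_zero.1 (by rw [← hD']; exact h0)
    funext b
    have := hv1 b
    rw [hV0] at this
    exact (Submodule.mem_bot ℚ).1 this
  -- a maximal family of bad tuples
  let P : ℕ → Prop := fun m => ¬ ∃ G : Fin m → Fin k → ℕ, SepJ R G ∧ (∀ l i, G l i ≤ H) ∧
    ∀ l, Bad V fun b : Fin k → σ => ∏ i, ((ev t (F (G l i) (b i)) : ℝ) : ℂ)
  have hPD : P D' := by
    rintro ⟨G, hG1, hG2, hG3⟩
    exact hE D' H t hHt' G hG1 hG2 hpos V rfl hG3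
  have hex : ∃ m, P m := ⟨D', hPD⟩
  have hm0 : Nat.find hex ≠ 0 := by
    intro h
    have h1 := Nat.find_spec hex
    rw [h] at h1
    exact h1 ⟨fun l => l.elim0, ⟨fun l => l.elim0, fun l => l.elim0⟩, fun l => l.elim0, fun l => l.elim0⟩
  obtain ⟨m, hm⟩ := Nat.exists_eq_succ_of_ne_zero hm0
  have hmD : m + 1 ≤ D' := by
    rw [← Nat.succ_eq_add_one, ← hm]
    exact Nat.find_min' hex hPD
  have hPm : ¬ P m := Nat.find_min hex (by omega)
  have hPm1 : P (m + 1) := by
    rw [← Nat.succ_eq_add_one, ← hm]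
    exact Nat.find_spec hex
  obtain ⟨G, hG1, hG2, hG3⟩ := not_not.1 hPm
  refine ⟨Finset.univ.biUnion fun p : Fin m × Fin k => Finset.Ico (G p.1 p.2 + 1 - R) (G p.1 p.2 + R), ?_, ?_⟩
  · refine Finset.card_biUnion_le.trans ?_
    have h1 : ∀ p ∈ (Finset.univ : Finset (Fin m × Fin k)),
        (Finset.Ico (G p.1 p.2 + 1 - R) (G p.1 p.2 + R)).card ≤ 2 * R := by
      intro p _
      rw [Nat.card_Ico]
      omega
    refine (Finset.sum_le_card_nsmul _ _ _ h1).trans ?_
    rw [Finset.card_univ, Fintype.card_prod, Fintype.card_fin, Fintype.card_fin, smul_eq_mul]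
    exact Nat.mul_le_mul_right _ (Nat.mul_le_mul_right _ (by omega))
  · intro g hg hgS hb
    apply hPm1
    have hsep : ∀ i l' i', g i + R ≤ G l' i' ∨ G l' i' + R ≤ g i := by
      intro i l' i'
      have h1 := (hgS i).2
      rw [Finset.mem_biUnion] at h1
      by_contra h2
      push Not at h2
      apply h1
      refine ⟨(l', i'), Finset.mem_univ _, ?_⟩
      rw [Finset.mem_Ico]
      have := hG1.1 l' i'
      constructor
      · show G l' i' + 1 - R ≤ g i
        omega
      · show g i < G l' i' + R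
        omega
    refine ⟨Fin.cons g G, ⟨?_, ?_⟩, ?_, ?_⟩
    · intro l i
      induction l using Fin.cases with
      | zero => simpa only [Fin.cons_zero] using hg.1 i
      | succ l => simpa only [Fin.cons_succ] using hG1.1 l i
    · intro l i l' i' hne
      induction l using Fin.cases with
      | zero =>
        induction l' using Fin.cases with
        | zero =>
          simp only [Fin.cons_zero]
          exact hg.2 i i' fun h => hne (by rw [h])
        | succ l' =>
          simp only [Fin.cons_zero, Fin.cons_succ]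
          exact hsep i l' i'
      | succ l =>
        induction l' using Fin.cases with
        | zero =>
          simp only [Fin.cons_zero, Fin.cons_succ]
          exact (hsep i' l i).symm
        | succ l' =>
          simp only [Fin.cons_succ]
          exact hG1.2 l i l' i' fun h => hne (by
            rw [Prod.mk.injEq] at h ⊢
            exact ⟨by rw [h.1], h.2⟩)
    · intro l i
      induction l using Fin.cases with
      | zero => simpa only [Fin.cons_zero] using (hgS i).1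
      | succ l => simpa only [Fin.cons_succ] using hG2 l i
    · intro l
      induction l using Fin.cases with
      | zero => simpa only [Fin.cons_zero] using hb
      | succ l => simpa only [Fin.cons_succ] using hG3 l

end Pool.Agent.Y758.J
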